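import Pool.Agent.Helper346.Cd.CE
import Pool.Agent.Helper346.Cd.CF
import Pool.Agent.Helper346.Cd.CJ
import Pool.Agent.Helper346.Cd.CN

set_option autoImplicit false

open MvPolynomial

namespace Pool.Agent.TH855.Quad.Two

open Pool.Agent.Helper346.Cd

theorem CL_basis {κ l : Type*} [Field κ] [Field l] [CharP κ 2] [Algebra κ l]
    [Algebra.IsSeparable κ l] {m : ℕ} (a : Fin m → κ)
    (ha : ∀ y : Fin m → κ, ∑ i, a i * y i ^ 2 = 0 → y = 0) (z : Fin m → l)
    (hz : ∑ i, algebraMap κ l (a i) * z i ^ 2 = 0) : z = 0 := by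
  classical
  haveI : CharP l 2 := charP_of_injective_algebraMap (algebraMap κ l).injective 2
  haveI : Fact (Nat.Prime 2) := ⟨Nat.prime_two⟩
  haveI : ExpChar κ 2 := ExpChar.prime Nat.prime_two
  let W : Submodule κ l := Submodule.span κ (Set.range z)
  haveI : FiniteDimensional κ W := FiniteDimensional.span_of_finite κ (Set.finite_range z)
  let b := Module.finBasis κ W
  have hb : LinearIndependent κ (fun j => (b j : l)) :=
    b.linearIndependent.map' W.subtype W.ker_subtype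
  have hb3 := hb.map_pow_expChar_pow_of_isSeparable 2 1
  have hmem : ∀ i, z i ∈ W := fun i => Submodule.subset_span ⟨i, rfl⟩
  obtain ⟨w, hw⟩ : ∃ w : Fin m → Fin (Module.finrank κ W) → κ,
      ∀ i, z i = ∑ j, w i j • (b j : l) := by
    refine ⟨fun i j => b.repr ⟨z i, hmem i⟩ j, fun i => ?_⟩
    have h := congrArg (fun v : W => (v : l)) (b.sum_repr ⟨z i, hmem i⟩)
    simp only [AddSubmonoidClass.coe_finset_sum, Submodule.coe_smul] at h
    exact h.symm
  have h1 : ∑ j, (∑ i, a i * w i j ^ 2) • (b j : l) ^ 2 ^ 1 = 0 := by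
    rw [← hz]
    simp only [Finset.sum_smul]
    rw [Finset.sum_comm]
    apply Finset.sum_congr rfl
    intro i _
    rw [hw i, sum_pow_char, Finset.mul_sum]
    apply Finset.sum_congr rfl
    intro j _
    rw [smul_pow, Algebra.smul_def, Algebra.smul_def, map_mul, pow_one]
    ring
  have h2 := Fintype.linearIndependent_iff.1 hb3 _ h1
  funext i
  rw [hw i, Pi.zero_apply]
  apply Finset.sum_eq_zero
  intro j _
  have h3 := ha (fun i => w i j) (h2 j)
  have h4 := congrFun h3 i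
  simp only [Pi.zero_apply] at h4
  rw [h4, zero_smul]

theorem anisotropic_of_place {κ E l : Type*} [Field κ] [Field E] [Field l] [CharP κ 2]
    [Algebra κ l] [Algebra.IsSeparable κ l] (a : Fin 6 → κ)
    (ha : ∀ y : Fin 6 → κ, ∑ i, a i * y i ^ 2 = 0 → y = 0)
    (ι : κ →+* E) (c : E) (O : ValuationSubring E) (r : O →+* l)
    (hr : ∀ z : O, r z = 0 ↔ z ∉ {u : O | IsUnit u})
    (hι : ∀ a : κ, ∃ h : ι a ∈ O, r ⟨ι a, h⟩ = algebraMap κ l a)
    (hc : ∃ h : c ∈ O, r ⟨c, h⟩ = 0) (x : Fin 6 → E) (hx : x ≠ 0) :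
    ∑ i, ι (a i) * x i ^ 2 + c * (x 0 * x 1 + x 2 * x 3 + x 4 * x 5) ≠ 0 := by
  intro hsum
  obtain ⟨i0, -, hmax⟩ := Finset.exists_max_image (Finset.univ : Finset (Fin 6))
    (fun i => O.valuation (x i)) Finset.univ_nonempty
  have hx0 : x i0 ≠ 0 := by
    intro h0
    apply hx
    funext i
    have h1 := hmax i (Finset.mem_univ i)
    rw [h0, map_zero, le_zero_iff, map_eq_zero] at h1
    exact h1
  have hy : ∀ i, x i / x i0 ∈ O := by
    intro i
    rw [← O.valuation_le_one_iff, map_div₀]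
    have hv : O.valuation (x i0) ≠ 0 := (map_ne_zero _).2 hx0
    exact (div_le_one₀ (zero_lt_iff.2 hv)).2 (hmax i (Finset.mem_univ i))
  choose hιO hιr using hι
  obtain ⟨hcO, hcr⟩ := hc
  have hO : ∑ i, (⟨ι (a i), hιO (a i)⟩ : O) * (⟨x i / x i0, hy i⟩ : O) ^ 2 +
      (⟨c, hcO⟩ : O) * ((⟨x 0 / x i0, hy _⟩ : O) * (⟨x 1 / x i0, hy _⟩ : O) +
        (⟨x 2 / x i0, hy _⟩ : O) * (⟨x 3 / x i0, hy _⟩ : O) +
        (⟨x 4 / x i0, hy _⟩ : O) * (⟨x 5 / x i0, hy _⟩ : O)) = 0 := by
    apply Subtype.ext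
    push_cast
    have h1 : ∑ i, ι (a i) * (x i / x i0) ^ 2 = (∑ i, ι (a i) * x i ^ 2) / x i0 ^ 2 := by
      rw [Finset.sum_div]
      apply Finset.sum_congr rfl
      intro i _
      rw [div_pow, mul_div_assoc]
    have h2 : (x 0 / x i0) * (x 1 / x i0) + (x 2 / x i0) * (x 3 / x i0) +
        (x 4 / x i0) * (x 5 / x i0) =
        (x 0 * x 1 + x 2 * x 3 + x 4 * x 5) / x i0 ^ 2 := by
      field_simp
    rw [h1, h2, mul_div_assoc', ← add_div, hsum, zero_div]
  have hr0 := congrArg r hO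
  simp only [map_add, map_sum, map_mul, map_pow, map_zero, hcr, zero_mul, add_zero, hιr] at hr0
  have hz := CL_basis a ha (fun i => r ⟨x i / x i0, hy i⟩) hr0
  have h1 := congrFun hz i0
  have h2 : (⟨x i0 / x i0, hy i0⟩ : O) = 1 := by
    apply Subtype.ext
    exact div_self hx0
  simp only [h2, map_one, Pi.zero_apply] at h1
  exact one_ne_zero h1

theorem indep_squares (n : ℕ)
    (y : Fin (n + 1) → FractionRing (MvPolynomial ℕ (ZMod 2)))
    (hy : ∑ i : Fin (n + 1), algebraMap (MvPolynomial ℕ (ZMod 2)) _ (X (i : ℕ)) * y i ^ 2 = 0) :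
    y = 0 := by
  classical
  obtain ⟨b, hb⟩ := IsLocalization.exist_integer_multiples_of_finite
    (nonZeroDivisors (MvPolynomial ℕ (ZMod 2))) y
  choose w hw using hb
  have hb0 : (b : MvPolynomial ℕ (ZMod 2)) ≠ 0 := nonZeroDivisors.coe_ne_zero b
  have hinj := IsFractionRing.injective (MvPolynomial ℕ (ZMod 2))
    (FractionRing (MvPolynomial ℕ (ZMod 2)))
  have hw' : ∀ i, algebraMap (MvPolynomial ℕ (ZMod 2)) (FractionRing (MvPolynomial ℕ (ZMod 2))) (w i)
      = algebraMap _ _ (b : MvPolynomial ℕ (ZMod 2)) * y i := by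
    intro i
    rw [hw i, Algebra.smul_def]
  have h1 : ∑ i : Fin (n + 1), X (i : ℕ) * w i ^ 2 = (0 : MvPolynomial ℕ (ZMod 2)) := by
    apply hinj
    rw [map_sum, map_zero]
    have e : ∀ i : Fin (n + 1), algebraMap (MvPolynomial ℕ (ZMod 2))
        (FractionRing (MvPolynomial ℕ (ZMod 2))) (X (i : ℕ) * w i ^ 2) =
        algebraMap _ _ (b : MvPolynomial ℕ (ZMod 2)) ^ 2 *
          (algebraMap (MvPolynomial ℕ (ZMod 2)) _ (X (i : ℕ)) * y i ^ 2) := by
      intro i
      rw [map_mul, map_pow, hw' i]; ring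
    rw [Finset.sum_congr rfl (fun i _ => e i), ← Finset.mul_sum, hy, mul_zero]
  have h3 : (2 : MvPolynomial ℕ (ZMod 2)) = 0 := by
    have : (C (2 : ZMod 2) : MvPolynomial ℕ (ZMod 2)) = 2 := by
      rw [map_ofNat]
    rw [← this]
    have h30 : (2 : ZMod 2) = 0 := by decide
    rw [h30, map_zero]
  have hwz : ∀ j : Fin (n + 1), w j = 0 := by
    intro j
    have h4 := congrArg (pderiv (j : ℕ)) h1
    rw [map_sum, map_zero] at h4
    have e : ∀ i : Fin (n + 1), pderiv (j : ℕ) (X (i : ℕ) * w i ^ 2) =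
        if i = j then w j ^ 2 else (0 : MvPolynomial ℕ (ZMod 2)) := by
      intro i
      rw [Derivation.leibniz, Derivation.leibniz_pow]
      have e1 : (2 : ℕ) • (w i ^ (2 - 1) • pderiv (j : ℕ) (w i)) = (0 : MvPolynomial ℕ (ZMod 2)) := by
        rw [nsmul_eq_mul]
        push_cast
        rw [h3, zero_mul]
      rw [e1, smul_zero, zero_add, pderiv_X]
      by_cases hij : i = j
      · rw [hij, if_pos rfl, Pi.single_eq_same, smul_eq_mul, mul_one]
      · rw [if_neg hij, Pi.single_eq_of_ne, smul_zero]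
        intro hval
        exact hij (Fin.ext hval)
    rw [Finset.sum_congr rfl (fun i _ => e i), Finset.sum_ite_eq' Finset.univ j] at h4
    simp only [Finset.mem_univ, if_true] at h4
    exact pow_eq_zero_iff (by norm_num) |>.mp h4
  funext j
  have h5 := hw' j
  rw [hwz j, map_zero] at h5
  have hb1 : algebraMap (MvPolynomial ℕ (ZMod 2)) (FractionRing (MvPolynomial ℕ (ZMod 2)))
      (b : MvPolynomial ℕ (ZMod 2)) ≠ 0 := by
    intro h6
    apply hb0
    apply hinj
    rw [h6, map_zero]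
  rcases mul_eq_zero.mp h5.symm with h6 | h6
  · exact absurd h6 hb1
  · exact h6

end Pool.Agent.TH855.Quad.Two
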