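import Mathlib

set_option autoImplicit false

open MvPolynomial

namespace Pool.Agent.TH855.Quad

/-! ### Continuous cohomology of a profinite group and cohomological dimension -/

/-- `M` is a discrete `G`-module: the stabiliser of every element of `M` is open in `G`. -/
def IsDiscreteModule (G M : Type*) [Group G] [TopologicalSpace G] [AddCommGroup M]
    [DistribMulAction G M] : Prop :=
  ∀ m : M, IsOpen {g : G | g • m = m}

/-- `f : G^(q+1) → M` is a homogeneous continuous `q`-cochain: it is continuous for the discrete
topology on `M` (that is, locally constant) and `G`-equivariant. -/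
def IsCochain {G M : Type*} [Group G] [TopologicalSpace G] [AddCommGroup M]
    [DistribMulAction G M] (q : ℕ) (f : (Fin (q + 1) → G) → M) : Prop :=
  IsLocallyConstant f ∧ ∀ (g : G) (x : Fin (q + 1) → G), f (fun i => g * x i) = g • f x

/-- The differential of homogeneous cochains:
`(df)(x₀, …, x_(q+1)) = ∑ⱼ (-1)ʲ f(x₀, …, x̂ⱼ, …, x_(q+1))`. -/
def diff {G M : Type*} [AddCommGroup M] (q : ℕ) (f : (Fin (q + 1) → G) → M) :
    (Fin (q + 2) → G) → M :=
  fun x => ∑ j : Fin (q + 2), (-1 : ℤ) ^ (j : ℕ) • f (fun i => x (j.succAbove i))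

/-- `H^(q+1)(G, M) = 0`: every continuous homogeneous `(q+1)`-cocycle is the differential of a
continuous homogeneous `q`-cochain. -/
def HSuccVanishes (G M : Type*) [Group G] [TopologicalSpace G] [AddCommGroup M]
    [DistribMulAction G M] (q : ℕ) : Prop :=
  ∀ f : (Fin (q + 2) → G) → M, IsCochain (q + 1) f → diff (q + 1) f = 0 →
    ∃ g : (Fin (q + 1) → G) → M, IsCochain q g ∧ diff q g = f

/-- The topological group `G` has cohomological dimension at most `n`: `H^i(G, M) = 0` for all
`i > n` and all discrete torsion `G`-modules `M` (here `i = q + 1` with `q ≥ n`). -/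
def CdLe (G : Type) [Group G] [TopologicalSpace G] (n : ℕ) : Prop :=
  ∀ (M : Type) [AddCommGroup M] [DistribMulAction G M], IsDiscreteModule G M →
    (∀ m : M, IsOfFinAddOrder m) → ∀ q : ℕ, n ≤ q → HSuccVanishes G M q

/-- The cohomological dimension of the field `k` is `n`: `n` is the least natural number `m` such
that `H^i(Gal(kₛ/k), M) = 0` for all `i > m` and all discrete torsion modules `M`, where `kₛ` is a
separable closure of `k`. -/
def HasCohomologicalDimension (k : Type) [Field k] (n : ℕ) : Prop :=
  CdLe Gal(SeparableClosure k/k) n ∧ ∀ m : ℕ, CdLe Gal(SeparableClosure k/k) m → n ≤ m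

/-! ### Intersections of two quadrics -/

/-- The closed subscheme `f = g = 0` of `ℙⁿ` over `k` is a smooth complete intersection, by the
Jacobian criterion: at every geometric point of it the gradients of `f` and `g` are linearly
independent. -/
def IsSmoothCompleteIntersection {k : Type*} [Field k] {n : ℕ}
    (f g : MvPolynomial (Fin (n + 1)) k) : Prop :=
  ∀ x : Fin (n + 1) → AlgebraicClosure k, x ≠ 0 → aeval x f = 0 → aeval x g = 0 →
    LinearIndependent (AlgebraicClosure k)
      ![fun i => aeval x (pderiv i f), fun i => aeval x (pderiv i g)]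

/-- The subscheme `f = g = 0` of `ℙⁿ` has a `k`-rational point. -/
def HasRationalPoint {k : Type*} [Field k] {n : ℕ} (f g : MvPolynomial (Fin (n + 1)) k) : Prop :=
  ∃ x : Fin (n + 1) → k, x ≠ 0 ∧ eval x f = 0 ∧ eval x g = 0

end Pool.Agent.TH855.Quad
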