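import Pool.Agent.TH855.Quad.Defs

set_option autoImplicit false

namespace Pool.Agent.TH855.Quad

/-- If `s² - s = b` with `b ∈ k` has no solution in `k`, then `H¹(Gal(K/k), ℤ/2) ≠ 0`. -/
theorem not_cdLe_zero {k : Type} [Field k] [CharP k 2] (b : k) (hb : ∀ s : k, s ^ 2 - s ≠ b) :
    ¬ CdLe Gal(SeparableClosure k/k) 0 := by
  intro hcd
  haveI : CharP (SeparableClosure k) 2 :=
    charP_of_injective_algebraMap (algebraMap k (SeparableClosure k)).injective 2
  haveI : Fact (Nat.Prime 2) := ⟨Nat.prime_two⟩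
  let G := Gal(SeparableClosure k/k)
  letI act : DistribMulAction G (ZMod 2) :=
    { smul := fun _ n => n
      one_smul := fun _ => rfl
      mul_smul := fun _ _ _ => rfl
      smul_zero := fun _ => rfl
      smul_add := fun _ _ _ => rfl }
  have hsmul : ∀ (g : G) (n : ZMod 2), g • n = n := fun _ _ => rfl
  obtain ⟨s, hs⟩ := IsSepClosed.exists_root_C_mul_X_pow_add_C_mul_X_add_C'
    (k := SeparableClosure k) 2 2 (1 : SeparableClosure k) (-1)
    (-(algebraMap k (SeparableClosure k) b)) (dvd_refl 2) (by norm_num) (by norm_num)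
  have hs' : s ^ 2 - s = algebraMap k (SeparableClosure k) b := by linear_combination hs
  let ι : ZMod 2 →+* SeparableClosure k := ZMod.castHom (dvd_refl 2) (SeparableClosure k)
  have hιinj : Function.Injective ι := ι.injective
  have hιfix : ∀ (σ : G) (n : ZMod 2), σ (ι n) = ι n := by
    intro σ n
    have : ((σ : SeparableClosure k →+* SeparableClosure k).comp ι) = ι := Subsingleton.elim _ _
    exact congrArg (fun φ : ZMod 2 →+* SeparableClosure k => φ n) this
  have hex : ∀ σ τ : G, ∃ n : ZMod 2, ι n = σ s - τ s := by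
    intro σ τ
    have h1 : (σ s) ^ 2 - σ s = algebraMap k (SeparableClosure k) b := by
      rw [← map_pow, ← map_sub, hs', AlgEquiv.commutes]
    have h2 : (τ s) ^ 2 - τ s = algebraMap k (SeparableClosure k) b := by
      rw [← map_pow, ← map_sub, hs', AlgEquiv.commutes]
    have h3 : (σ s - τ s) * (σ s - τ s - 1) = 0 := by
      have h4 : (2 : SeparableClosure k) = 0 := CharTwo.two_eq_zero
      linear_combination h1 - h2 + (τ s ^ 2 - σ s * τ s + (τ s)) * h4 - (τ s) * h4
    rcases mul_eq_zero.1 h3 with h4 | h4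
    · exact ⟨0, by rw [map_zero, h4]⟩
    · exact ⟨1, by rw [map_one, (sub_eq_zero.1 h4)]⟩
  choose χ hχ using hex
  have hloc : ∀ (x : Fin (0 + 2) → G) (i : Fin (0 + 2)), ∀ᶠ y in nhds x, (y i) s = (x i) s := by
    intro x i
    have h1 := stabilizer_isOpen_of_isIntegral (K := k) (L := SeparableClosure k) s
    have h2 : Continuous (fun y : Fin (0 + 2) → G => (x i)⁻¹ * y i) := by fun_prop
    have h3 := (h1.preimage h2).mem_nhds (x := x) (by simp)
    filter_upwards [h3] with y hy
    have h4 : ((x i)⁻¹ * y i) • s = s := hy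
    rw [mul_smul, inv_smul_eq_iff] at h4
    exact h4
  obtain ⟨g, hg, hdg⟩ := hcd (ZMod 2) (fun m => by
      have : {g : G | g • m = m} = Set.univ := by
        ext g; simp [hsmul]
      rw [this]; exact isOpen_univ)
    (fun m => isOfFinAddOrder_of_finite m) 0 le_rfl
    (fun x => χ (x 1) (x 0)) ⟨by
      rw [IsLocallyConstant.iff_eventually_eq]
      intro x
      filter_upwards [hloc x 0, hloc x 1] with y h0 h1
      apply hιinj
      rw [hχ, hχ, h0, h1], by
      intro σ x
      rw [hsmul]
      apply hιinj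
      rw [hχ, hχ]
      show σ (x 1 s) - σ (x 0 s) = _
      rw [← map_sub, ← hχ, hιfix]⟩ (by
      funext x
      apply hιinj
      unfold diff
      rw [Fin.sum_univ_three]
      simp only [Fin.val_zero, pow_zero, one_smul, Fin.val_one, pow_one, Fin.val_two, neg_smul,
        map_add, map_neg, hχ, Pi.zero_apply, map_zero, even_two, Even.neg_pow, one_pow]
      simp [Fin.succAbove])
  have hfix : ∀ σ : G, σ s = s := by
    intro σ
    have h1 := congrFun hdg ![1, σ]
    unfold diff at h1
    rw [Fin.sum_univ_two] at h1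
    have h2 : ∀ y : Fin (0 + 1) → G, g y = g 1 := by
      intro y
      have h3 := hg.2 (y 0) 1
      rw [hsmul] at h3
      rw [← h3]
      congr 1
      funext i
      have hi : i = 0 := Fin.ext (by have := i.2; omega)
      rw [hi]
      simp
    rw [h2, h2 (fun i => ![1, σ] ((1 : Fin (0 + 2)).succAbove i))] at h1
    have h4 : χ σ 1 = 0 := by
      have h5 : χ σ 1 = χ ((![1, σ] : Fin 2 → G) 1) ((![1, σ] : Fin 2 → G) 0) := rfl
      rw [h5]
      refine Eq.trans h1.symm ?_
      have h6 : (-1 : ℤ) ^ ((0 : Fin (0 + 2)) : ℕ) • g 1 + (-1 : ℤ) ^ ((1 : Fin (0 + 2)) : ℕ) • g 1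
          = g 1 - g 1 := by
        rw [sub_eq_add_neg]
        congr 1
        · exact one_smul ℤ (g 1)
        · show (-1 : ℤ) ^ 1 • g 1 = - g 1
          rw [pow_one, neg_smul, one_smul]
      rw [h6, sub_self]
    have h6 := hχ σ 1
    rw [h4, map_zero] at h6
    have h7 := sub_eq_zero.1 h6.symm
    exact h7
  have hmem : s ∈ (⊥ : IntermediateField k (SeparableClosure k)) := by
    rw [InfiniteGalois.mem_bot_iff_fixed]
    exact hfix
  obtain ⟨r, hr⟩ := IntermediateField.mem_bot.1 hmem
  apply hb r
  apply (algebraMap k (SeparableClosure k)).injective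
  rw [map_sub, map_pow, hr, hs']

end Pool.Agent.TH855.Quad
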