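import Pool.Agent.Helper346.Cd.CE
import Pool.Agent.Helper346.Cd.CF
import Pool.Agent.Helper346.Cd.CJ
import Pool.Agent.Helper346.Cd.CN
import Pool.Agent.TH855.Quad.Coh

set_option autoImplicit false

open MvPolynomial

namespace Pool.Agent.TH855.Quad.Two

open Pool.Agent.Helper346.Cd

theorem finrank_eq_one_of_prime_to {k : Type*} [Field k] [CharP k 2]
    (hk : ∀ f : Polynomial k, Irreducible f → f.Separable → ¬ 2 ∣ f.natDegree → f.natDegree = 1)
    (M : Type*) [Field M] [Algebra k M] [FiniteDimensional k M]
    (h3 : ¬ 2 ∣ Module.finrank k M) : Module.finrank k M = 1 := by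
  have hdvd : ∀ x : M, ¬ 2 ∣ (minpoly k x).natDegree := fun x h =>
    h3 (h.trans (minpoly.degree_dvd (Algebra.IsIntegral.isIntegral x)))
  have hsep : Algebra.IsSeparable k M := by
    rw [Algebra.isSeparable_def]
    intro x
    rcases Polynomial.separable_or 2 (minpoly.irreducible (Algebra.IsIntegral.isIntegral (R := k) x))
      with h | ⟨_, g, _, hg⟩
    · exact h
    · exfalso
      apply hdvd x
      rw [← hg, Polynomial.natDegree_expand]
      exact dvd_mul_left _ _
  obtain ⟨x, hx⟩ := Field.exists_primitive_element k M
  have hint : IsIntegral k x := Algebra.IsIntegral.isIntegral x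
  have h1 := IntermediateField.adjoin.finrank hint
  rw [hx, IntermediateField.finrank_top'] at h1
  rw [h1]
  exact hk _ (minpoly.irreducible hint) (Algebra.IsSeparable.isSeparable k x) (hdvd x)

theorem isProTwo_gal {k K : Type*} [Field k] [Field K] [Algebra k K] [IsGalois k K]
    (hk : ∀ (M : IntermediateField k K) [FiniteDimensional k M], ¬ 2 ∣ Module.finrank k M →
      Module.finrank k M = 1) :
    IsProTwo Gal(K/k) := by
  intro U hU hUo
  have : Fact (Nat.Prime 2) := ⟨by norm_num⟩
  have hUc : IsClosed (U : Set Gal(K/k)) := Subgroup.isClosed_of_isOpen U hUo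
  let H : ClosedSubgroup Gal(K/k) := ⟨U, hUc⟩
  have hfix : (IntermediateField.fixedField U).fixingSubgroup = U :=
    InfiniteGalois.fixingSubgroup_fixedField H
  have hfin : FiniteDimensional k (IntermediateField.fixedField U) ∧
      IsGalois k (IntermediateField.fixedField U) :=
    (InfiniteGalois.isOpen_and_normal_iff_finite_and_isGalois _).1 (by
      rw [hfix]
      exact ⟨hUo, hU⟩)
  have := hfin.1
  have := hfin.2
  have hHn : H.Normal := hU
  have hidx : U.index = Nat.card Gal(IntermediateField.fixedField U/k) :=
    Nat.card_congr (InfiniteGalois.normalAutEquivQuotient H).toEquiv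
  generalize hL : IntermediateField.fixedField U = L at *
  let P : Sylow 2 Gal(L/k) := default
  have h1 : Module.finrank (IntermediateField.fixedField (P : Subgroup Gal(L/k))) L =
      Nat.card (P : Subgroup Gal(L/k)) := IntermediateField.finrank_fixedField_eq_card _
  have h2 := Module.finrank_mul_finrank k (IntermediateField.fixedField (P : Subgroup Gal(L/k))) L
  have h3 : Nat.card Gal(L/k) = Module.finrank k L := IsGalois.card_aut_eq_finrank k L
  have h4 := (P : Subgroup Gal(L/k)).card_mul_index
  have hPpos : 0 < Nat.card (P : Subgroup Gal(L/k)) := Nat.card_pos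
  have h5 : Module.finrank k (IntermediateField.fixedField (P : Subgroup Gal(L/k))) =
      (P : Subgroup Gal(L/k)).index := by
    rw [h1, ← h3, ← h4, mul_comm] at h2
    exact Nat.eq_of_mul_eq_mul_left hPpos h2
  have h6 : ¬ 2 ∣ (P : Subgroup Gal(L/k)).index := P.not_dvd_index
  have h7 : Module.finrank k (IntermediateField.lift
      (IntermediateField.fixedField (P : Subgroup Gal(L/k)))) =
      Module.finrank k (IntermediateField.fixedField (P : Subgroup Gal(L/k))) :=
    (IntermediateField.liftAlgEquiv
      (IntermediateField.fixedField (P : Subgroup Gal(L/k)))).toLinearEquiv.finrank_eq.symm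
  have : FiniteDimensional k (IntermediateField.lift
      (IntermediateField.fixedField (P : Subgroup Gal(L/k)))) :=
    Module.Finite.equiv (IntermediateField.liftAlgEquiv
      (IntermediateField.fixedField (P : Subgroup Gal(L/k)))).toLinearEquiv
  have h8 := hk (IntermediateField.lift (IntermediateField.fixedField (P : Subgroup Gal(L/k))))
    (by rw [h7, h5]; exact h6)
  rw [h7, h5] at h8
  rw [h8, mul_one] at h4
  obtain ⟨m, hm⟩ := IsPGroup.iff_card.1 P.isPGroup'
  exact ⟨m, by rw [hidx, ← h4, hm]⟩

end Pool.Agent.TH855.Quad.Two
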