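import Pool.Agent.TH855.Quad.Forms

set_option autoImplicit false

open MvPolynomial

namespace Pool.Agent.TH855.Quad

theorem pair_zero {K : Type*} [Field K] {A B C T p q : K} (hA : A ≠ 0) (hB : B ≠ 0) (hT : T ≠ 0)
    (h1 : A * p ^ 2 + B * q ^ 2 + C * (p * q) = 0) (h2 : T * (p * q) = 0) : p = 0 ∧ q = 0 := by
  have h3 : p * q = 0 := (mul_eq_zero.1 h2).resolve_left hT
  rw [h3, mul_zero, add_zero] at h1
  rcases mul_eq_zero.1 h3 with h | h
  · refine ⟨h, ?_⟩
    rw [h] at h1
    have h4 : B * q ^ 2 = 0 := by simpa using h1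
    exact pow_eq_zero_iff (by norm_num) |>.1 ((mul_eq_zero.1 h4).resolve_left hB)
  · refine ⟨?_, h⟩
    rw [h] at h1
    have h4 : A * p ^ 2 = 0 := by simpa using h1
    exact pow_eq_zero_iff (by norm_num) |>.1 ((mul_eq_zero.1 h4).resolve_left hA)

theorem smooth_pair {k : Type*} [Field k] [CharP k 2] (a : Fin 6 → k) (c : k) (t : Fin 3 → k)
    (ha : ∀ i, a i ≠ 0) (hc : c ≠ 0) (ht : ∀ i, t i ≠ 0) (htt : Function.Injective t) :
    IsSmoothCompleteIntersection (formF a c) (formG t) := by
  intro x hx hF hG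
  have hinj := (algebraMap k (AlgebraicClosure k)).injective
  have ha' : ∀ i, algebraMap k (AlgebraicClosure k) (a i) ≠ 0 := fun i =>
    (map_ne_zero_iff _ hinj).2 (ha i)
  have hc' : algebraMap k (AlgebraicClosure k) c ≠ 0 := (map_ne_zero_iff _ hinj).2 hc
  have ht' : ∀ i, algebraMap k (AlgebraicClosure k) (t i) ≠ 0 := fun i =>
    (map_ne_zero_iff _ hinj).2 (ht i)
  rw [LinearIndependent.pair_iff]
  intro s u hsu
  have hrel0 : ∀ i, (s * algebraMap k (AlgebraicClosure k) c +
      u * algebraMap k (AlgebraicClosure k) (t (blk i))) * x (part i) = 0 := by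
    intro i
    have h := congrFun hsu i
    simp only [Pi.add_apply, Pi.smul_apply, smul_eq_mul, Pi.zero_apply] at h
    rw [pderiv_formF, pderiv_formG] at h
    linear_combination h
  have hpp : ∀ i, part (part i) = i := by decide
  have hd0 : ∀ i : Fin 6, blk i = 0 → i = 0 ∨ i = 1 := by decide
  have hd1 : ∀ i : Fin 6, blk i = 1 → i = 2 ∨ i = 3 := by decide
  have hd2 : ∀ i : Fin 6, blk i = 2 → i = 4 ∨ i = 5 := by decide
  have hbp : ∀ i, blk (part i) = blk i := by decide
  have hrel : ∀ i, x i ≠ 0 → s * algebraMap k (AlgebraicClosure k) c +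
      u * algebraMap k (AlgebraicClosure k) (t (blk i)) = 0 := by
    intro i hi
    have h := hrel0 (part i)
    rw [hpp, hbp] at h
    exact (mul_eq_zero.1 h).resolve_right hi
  obtain ⟨i0, hi0⟩ : ∃ i, x i ≠ 0 := by
    by_contra hcon
    push Not at hcon
    exact hx (funext hcon)
  have h0 := hrel i0 hi0
  by_cases hu : u = 0
  · rw [hu, zero_mul, add_zero] at h0
    exact ⟨(mul_eq_zero.1 h0).resolve_right hc', hu⟩
  exfalso
  have hblk : ∀ j, blk j ≠ blk i0 → x j = 0 := by
    intro j hj
    by_contra hxj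
    have h1 := hrel j hxj
    have h2 : u * (algebraMap k (AlgebraicClosure k) (t (blk j)) -
        algebraMap k (AlgebraicClosure k) (t (blk i0))) = 0 := by
      linear_combination h1 - h0
    rcases mul_eq_zero.1 h2 with h3 | h3
    · exact hu h3
    · exact hj (htt (hinj (sub_eq_zero.1 h3)))
  rw [aeval_formF, Fin.sum_univ_six] at hF
  rw [aeval_formG] at hG
  have hb : blk i0 = 0 ∨ blk i0 = 1 ∨ blk i0 = 2 := by
    generalize blk i0 = b
    fin_cases b <;> simp
  rcases hb with hb | hb | hb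
  · have e2 := hblk 2 (by rw [hb]; decide)
    have e3 := hblk 3 (by rw [hb]; decide)
    have e4 := hblk 4 (by rw [hb]; decide)
    have e5 := hblk 5 (by rw [hb]; decide)
    obtain ⟨h1, h2⟩ := pair_zero (p := x 0) (q := x 1) (ha' 0) (ha' 1) (ht' 0)
      (C := algebraMap k (AlgebraicClosure k) c)
      (by rw [e2, e3, e4, e5] at hF; linear_combination hF)
      (by rw [e2, e4] at hG; linear_combination hG)
    have : i0 = 0 ∨ i0 = 1 := hd0 i0 hb
    rcases this with rfl | rfl
    · exact hi0 h1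
    · exact hi0 h2
  · have e2 := hblk 0 (by rw [hb]; decide)
    have e3 := hblk 1 (by rw [hb]; decide)
    have e4 := hblk 4 (by rw [hb]; decide)
    have e5 := hblk 5 (by rw [hb]; decide)
    obtain ⟨h1, h2⟩ := pair_zero (p := x 2) (q := x 3) (ha' 2) (ha' 3) (ht' 1)
      (C := algebraMap k (AlgebraicClosure k) c)
      (by rw [e2, e3, e4, e5] at hF; linear_combination hF)
      (by rw [e2, e4] at hG; linear_combination hG)
    have : i0 = 2 ∨ i0 = 3 := hd1 i0 hb
    rcases this with rfl | rfl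
    · exact hi0 h1
    · exact hi0 h2
  · have e2 := hblk 0 (by rw [hb]; decide)
    have e3 := hblk 1 (by rw [hb]; decide)
    have e4 := hblk 2 (by rw [hb]; decide)
    have e5 := hblk 3 (by rw [hb]; decide)
    obtain ⟨h1, h2⟩ := pair_zero (p := x 4) (q := x 5) (ha' 4) (ha' 5) (ht' 2)
      (C := algebraMap k (AlgebraicClosure k) c)
      (by rw [e2, e3, e4, e5] at hF; linear_combination hF)
      (by rw [e2, e4] at hG; linear_combination hG)
    have : i0 = 4 ∨ i0 = 5 := hd2 i0 hb
    rcases this with rfl | rfl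
    · exact hi0 h1
    · exact hi0 h2

end Pool.Agent.TH855.Quad
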