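import Pool.Agent.TH855.Quad.Coh
import Pool.Agent.TH855.Quad.Place
import Pool.Agent.TH855.Quad.Aniso
import Pool.Agent.TH855.Quad.Pro
import Pool.Agent.TH855.Quad.Smooth
import Pool.Agent.TH855.Quad.HOne

set_option autoImplicit false

open MvPolynomial

namespace Pool.Agent.TH855.Quad

theorem cdLe_one_of {k : Type} [Field k] [CharP k 2]
    (hk : ∀ f : Polynomial k, Irreducible f → f.Separable → ¬ 2 ∣ f.natDegree → f.natDegree = 1) :
    CdLe Gal(SeparableClosure k/k) 1 := by
  have hpro : Two.IsProTwo Gal(SeparableClosure k/k) :=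
    Two.isProTwo_gal (fun M _ h => Two.finrank_eq_one_of_prime_to hk M h)
  intro M _ _ hM ht q hq
  exact Pool.Agent.Helper346.Cd.vanish_torsion_of_finite q
    (fun M' _ _ _ hM' => Two.vanish_finite hpro M' hM' q hq) M hM ht

theorem anisotropic {κ K Ω : Type} [Field κ] [CharP κ 2] [Field K] [Field Ω]
    [Algebra (Polynomial κ) K] [IsFractionRing (Polynomial κ) K] [Algebra K Ω]
    [Algebra.IsSeparable K Ω] (E : IntermediateField K Ω)
    (hE : ∀ T : IntermediateField K Ω, T ≤ E → FiniteDimensional K T → ¬ 2 ∣ Module.finrank K T)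
    (a : Fin 6 → κ) (ha : ∀ y : Fin 6 → κ, ∑ i, a i * y i ^ 2 = 0 → y = 0)
    (x : Fin 6 → E) (hx0 : eval x (formF
      (fun i => algebraMap K E (algebraMap (Polynomial κ) K (Polynomial.C (a i))))
      (algebraMap K E (algebraMap (Polynomial κ) K Polynomial.X))) = 0) : x = 0 := by
  by_contra hx
  rw [eval_formF] at hx0
  let T : IntermediateField K Ω :=
    IntermediateField.adjoin K (Set.range fun i => ((x i : E) : Ω))
  have hTE : T ≤ E := by
    refine IntermediateField.adjoin_le_iff.2 ?_
    rintro _ ⟨i, rfl⟩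
    exact (x i).2
  have : FiniteDimensional K T := by
    have : Finite (Set.range fun i => ((x i : E) : Ω)) := Set.finite_range _
    refine IntermediateField.finiteDimensional_adjoin ?_
    intro y _
    exact Algebra.IsIntegral.isIntegral y
  have h3 := hE T hTE inferInstance
  let ι : κ →+* T := (algebraMap K T).comp ((algebraMap (Polynomial κ) K).comp Polynomial.C)
  let c : T := algebraMap K T (algebraMap (Polynomial κ) K Polynomial.X)
  obtain ⟨O, l, _, _, r, _, hr, hι, hc⟩ := Two.exists_good_place (κ := κ) (E := T) K h3 ι c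
    (fun a => rfl) rfl
  let y : Fin 6 → T := fun i =>
    ⟨((x i : E) : Ω), IntermediateField.subset_adjoin _ _ ⟨i, rfl⟩⟩
  have hy : y ≠ 0 := by
    intro h
    apply hx
    funext i
    have := congrArg (fun t : T => (t : Ω)) (congrFun h i)
    exact Subtype.ext this
  refine Two.anisotropic_of_place a ha ι c O r hr hι hc y hy ?_
  apply Subtype.ext
  have := congrArg (fun t : E => (t : Ω)) hx0
  simpa [y, ι, c] using this

theorem pack {k : Type} [Field k] [CharP k 2]
    (hk : ∀ f : Polynomial k, Irreducible f → f.Separable → ¬ 2 ∣ f.natDegree → f.natDegree = 1)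
    (a : Fin 6 → k) (c : k) (ha : ∀ i, a i ≠ 0) (hc : c ≠ 0) (hc1 : c ≠ 1)
    (hani : ∀ x : Fin 6 → k, eval x (formF a c) = 0 → x = 0) :
    HasCohomologicalDimension k 1 ∧
    ∃ f g : MvPolynomial (Fin (5 + 1)) k, f.IsHomogeneous 2 ∧ g.IsHomogeneous 2 ∧
      IsSmoothCompleteIntersection f g ∧ ¬ HasRationalPoint f g := by
  have h22 : (2 : k) = 0 := CharTwo.two_eq_zero
  refine ⟨⟨cdLe_one_of hk, fun m hm => ?_⟩, formF a c, formG ![1, c, c + 1],
    formF_homogeneous a c, formG_homogeneous _, ?_, ?_⟩
  · rcases Nat.eq_zero_or_pos m with rfl | hm0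
    · exfalso
      refine not_cdLe_zero (a 0 * a 1 / c ^ 2) ?_ hm
      intro s hs
      have h1 := hani ![c * s / a 0, 1, 0, 0, 0, 0] (by
        rw [eval_formF, Fin.sum_univ_six]
        have h2 : s ^ 2 = s + a 0 * a 1 / c ^ 2 := by linear_combination hs
        have h3 : a 0 * (c * s / a 0) ^ 2 + a 1 * 1 ^ 2 + c * ((c * s / a 0) * 1) = 0 := by
          have h4 : (c * s / a 0) ^ 2 = c ^ 2 * s ^ 2 / a 0 ^ 2 := by ring
          have h0 := ha 0
          have h5 : c ^ 2 * (a 0 * a 1 / c ^ 2) = a 0 * a 1 := by field_simp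
          rw [h4, h2]
          have h6 : a 0 * (c ^ 2 * (s + a 0 * a 1 / c ^ 2) / a 0 ^ 2) =
              (c ^ 2 * s + a 0 * a 1) / a 0 := by
            rw [mul_add, h5]
            field_simp
          rw [h6]
          have h7 : (c ^ 2 * s + a 0 * a 1) / a 0 + a 1 * 1 ^ 2 + c * (c * s / a 0 * 1) =
              2 * ((c ^ 2 * s) / a 0 + a 1) := by
            field_simp
            ring
          rw [h7, h22, zero_mul]
        simpa using h3)
      have h2 := congrFun h1 1
      simp at h2
    · exact hm0
  · refine smooth_pair a c _ ha hc ?_ ?_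
    · intro i
      fin_cases i
      · simp
      · simpa using hc
      · show c + 1 ≠ 0
        intro h
        apply hc1
        linear_combination h - h22
    · have h1 : (1 : k) ≠ c := fun h => hc1 h.symm
      have h2 : (1 : k) ≠ c + 1 := fun h => hc (by linear_combination -h)
      have h3 : c ≠ c + 1 := fun h => one_ne_zero (α := k) (by linear_combination -h)
      intro i j hij
      fin_cases i <;> fin_cases j
      · rfl
      · exact absurd hij h1
      · exact absurd hij h2
      · exact absurd hij.symm h1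
      · rfl
      · exact absurd hij h3
      · exact absurd hij.symm h2
      · exact absurd hij.symm h3
      · rfl
  · rintro ⟨x, hx, hf, -⟩
    exact hx (hani x hf)

theorem main : ∃ (k : Type) (_ : Field k), HasCohomologicalDimension k 1 ∧
    ∃ f g : MvPolynomial (Fin (5 + 1)) k, f.IsHomogeneous 2 ∧ g.IsHomogeneous 2 ∧
      IsSmoothCompleteIntersection f g ∧ ¬ HasRationalPoint f g := by
  let κ := FractionRing (MvPolynomial ℕ (ZMod 2))
  let K0 := FractionRing (Polynomial κ)
  haveI : Fact (Nat.Prime 2) := ⟨Nat.prime_two⟩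
  have : CharP κ 2 :=
    charP_of_injective_algebraMap (IsFractionRing.injective (MvPolynomial ℕ (ZMod 2)) κ) 2
  have : CharP K0 2 :=
    charP_of_injective_algebraMap (IsFractionRing.injective (Polynomial κ) K0) 2
  obtain ⟨E, hE1, hE2⟩ :=
    Pool.Agent.Helper346.Cd.exists_maximal_prime_to 2 Nat.prime_two K0 (SeparableClosure K0)
  have : CharP E 2 := charP_of_injective_algebraMap (algebraMap K0 E).injective 2
  refine ⟨E, inferInstance, pack hE2 _ _ ?_ ?_ ?_ (anisotropic E hE1
    (fun i => algebraMap (MvPolynomial ℕ (ZMod 2)) κ (X (i : ℕ))) (Two.indep_squares 5))⟩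
  · intro i
    rw [ne_eq, map_eq_zero_iff _ (algebraMap K0 E).injective,
      map_eq_zero_iff _ (IsFractionRing.injective (Polynomial κ) K0), Polynomial.C_eq_zero,
      map_eq_zero_iff _ (IsFractionRing.injective (MvPolynomial ℕ (ZMod 2)) κ)]
    exact MvPolynomial.X_ne_zero _
  · rw [ne_eq, map_eq_zero_iff _ (algebraMap K0 E).injective,
      map_eq_zero_iff _ (IsFractionRing.injective (Polynomial κ) K0)]
    exact Polynomial.X_ne_zero
  · intro h
    have h1 : (Polynomial.X : Polynomial κ) = 1 := by
      apply IsFractionRing.injective (Polynomial κ) K0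
      apply (algebraMap K0 E).injective
      rw [map_one, map_one]
      exact h
    have h2 := congrArg (Polynomial.eval 0) h1
    rw [Polynomial.eval_X, Polynomial.eval_one] at h2
    exact zero_ne_one h2

end Pool.Agent.TH855.Quad
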