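import Pool.Agent.TH855.Quad.Defs

set_option autoImplicit false

open MvPolynomial

namespace Pool.Agent.TH855.Quad

/-- The quadratic form `∑ᵢ aᵢ xᵢ² + c (x₀x₁ + x₂x₃ + x₄x₅)`. -/
noncomputable def formF {k : Type*} [Field k] (a : Fin 6 → k) (c : k) :
    MvPolynomial (Fin (5 + 1)) k :=
  ∑ i : Fin 6, C (a i) * X i ^ 2 + C c * (X 0 * X 1 + X 2 * X 3 + X 4 * X 5)

/-- The quadratic form `t₀ x₀x₁ + t₁ x₂x₃ + t₂ x₄x₅`. -/
noncomputable def formG {k : Type*} [Field k] (t : Fin 3 → k) :
    MvPolynomial (Fin (5 + 1)) k :=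
  C (t 0) * (X 0 * X 1) + C (t 1) * (X 2 * X 3) + C (t 2) * (X 4 * X 5)

theorem eval_formF {k : Type*} [Field k] (a : Fin 6 → k) (c : k) (x : Fin 6 → k) :
    eval x (formF a c) = ∑ i, a i * x i ^ 2 + c * (x 0 * x 1 + x 2 * x 3 + x 4 * x 5) := by
  simp [formF]

theorem aeval_formF {k K : Type*} [Field k] [Field K] [Algebra k K] (a : Fin 6 → k) (c : k)
    (x : Fin 6 → K) :
    aeval x (formF a c) = ∑ i, algebraMap k K (a i) * x i ^ 2 +
      algebraMap k K c * (x 0 * x 1 + x 2 * x 3 + x 4 * x 5) := by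
  simp [formF]

theorem aeval_formG {k K : Type*} [Field k] [Field K] [Algebra k K] (t : Fin 3 → k)
    (x : Fin 6 → K) :
    aeval x (formG t) = algebraMap k K (t 0) * (x 0 * x 1) + algebraMap k K (t 1) * (x 2 * x 3) +
      algebraMap k K (t 2) * (x 4 * x 5) := by
  simp [formG]

theorem homog_XX {k : Type*} [Field k] (i j : Fin 6) :
    (X i * X j : MvPolynomial (Fin 6) k).IsHomogeneous 2 :=
  (isHomogeneous_X k i).mul (isHomogeneous_X k j)

theorem homog_C {k : Type*} [Field k] (c : k) {p : MvPolynomial (Fin 6) k}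
    (hp : p.IsHomogeneous 2) : (C c * p).IsHomogeneous 2 := by
  simpa using (isHomogeneous_C (Fin 6) c).mul hp

theorem formF_homogeneous {k : Type*} [Field k] (a : Fin 6 → k) (c : k) :
    (formF a c).IsHomogeneous 2 := by
  unfold formF
  refine IsHomogeneous.add (IsHomogeneous.sum _ _ _ fun i _ => homog_C _ ?_) (homog_C _ ?_)
  · rw [pow_two]; exact homog_XX i i
  · exact ((homog_XX 0 1).add (homog_XX 2 3)).add (homog_XX 4 5)

theorem formG_homogeneous {k : Type*} [Field k] (t : Fin 3 → k) :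
    (formG t).IsHomogeneous 2 := by
  unfold formG
  exact ((homog_C _ (homog_XX 0 1)).add (homog_C _ (homog_XX 2 3))).add (homog_C _ (homog_XX 4 5))

/-- The partner of an index: `0 ↔ 1`, `2 ↔ 3`, `4 ↔ 5`. -/
def part : Fin 6 → Fin 6 := ![1, 0, 3, 2, 5, 4]

/-- The block of an index. -/
def blk : Fin 6 → Fin 3 := ![0, 0, 1, 1, 2, 2]

theorem pderiv_formF {k K : Type*} [Field k] [CharP k 2] [Field K] [Algebra k K] (a : Fin 6 → k)
    (c : k) (x : Fin 6 → K) (i : Fin 6) :
    aeval x (pderiv i (formF a c)) = algebraMap k K c * x (part i) := by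
  have h2 : (2 : K) = 0 := by
    haveI : CharP K 2 := charP_of_injective_algebraMap (algebraMap k K).injective 2
    exact CharTwo.two_eq_zero
  unfold formF
  rw [Fin.sum_univ_six]
  fin_cases i <;>
  · simp [Derivation.leibniz, Derivation.leibniz_pow, pderiv_X, Pi.single_apply, part, h2]

theorem pderiv_formG {k K : Type*} [Field k] [CharP k 2] [Field K] [Algebra k K] (t : Fin 3 → k)
    (x : Fin 6 → K) (i : Fin 6) :
    aeval x (pderiv i (formG t)) = algebraMap k K (t (blk i)) * x (part i) := by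
  unfold formG
  fin_cases i <;>
  · simp [Derivation.leibniz, pderiv_X, Pi.single_apply, part, blk]

end Pool.Agent.TH855.Quad
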